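import Mathlib
import Pool.Agent.Lib.MP_4e4c79_lc.Distortion

/-!
A theory in a countable signature, separably categorical up to linear homeomorphism, without a
uniform bound for the distortions between its separable models.
-/

namespace Pool.Agent.Lib.MP_4e4c79_lc.Old.NoUniformBound

open Pool.Agent.Lib.MP_4e4c79_lc

/-- There is a theory `T` in a countable signature expanding that of real Banach spaces, such that
any two separable models of `T` have linearly homeomorphic underlying Banach spaces, but for every
real number `C` there are separable models `M`, `N` of `T` such that every linear homeomorphism `S`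
from `M` onto `N` has `‖S‖ ‖S⁻¹‖ > C`. -/
theorem result : ∃ (L : Signature) (T : Theory L),
    Countable L.Fn ∧ Countable L.Rel ∧ SepCatUpToLinearHomeo T ∧
      ∀ C : ℝ, ∃ M N : Struc L, IsSepModel M T ∧ IsSepModel N T ∧
        ∀ S : M.carrier ≃L[ℝ] N.carrier, C < distortion S := by
  refine ⟨Incomplete.sig, Incomplete.TT, inferInstanceAs (Countable ℕ),
    inferInstanceAs (Countable Unit), Incomplete.sepCat_TT, fun C => ?_⟩
  obtain ⟨i, hi⟩ := exists_nat_gt C
  refine ⟨Incomplete.MM i, Incomplete.MM 0, Incomplete.isSepModel_MM i, Incomplete.isSepModel_MM 0,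
    fun S => ?_⟩
  have h := Incomplete.distortion_ge i S
  have h' : (i : ℝ) + 1 ≤ distortion S := h
  linarith

end Pool.Agent.Lib.MP_4e4c79_lc.Old.NoUniformBound
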