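import Mathlib
import Pool.Agent.Lib.MP_4e4c79_lc.SepModels
import Pool.Agent.Lib.MP_4e4c79_lc.Dist

/-!
A complete theory, separably categorical up to linear homeomorphism, without a uniform bound for the
distortions between its separable models.
-/

namespace Pool.Agent.Lib.MP_4e4c79_lc.Old.NoUniformBoundComplete

open Pool.Agent.Lib.MP_4e4c79_lc

/-- There is a complete theory `T` in a signature expanding that of real Banach spaces, such that
any two separable models of `T` have linearly homeomorphic underlying Banach spaces, but for every
real number `C` there are separable models `M`, `N` of `T` such that every linear homeomorphism `S`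
from `M` onto `N` has `‖S‖ ‖S⁻¹‖ > C`. -/
theorem result : ∃ (L : Signature) (T : Theory L),
    IsComplete T ∧ SepCatUpToLinearHomeo T ∧
      ∀ C : ℝ, ∃ M N : Struc L, IsSepModel M T ∧ IsSepModel N T ∧
        ∀ S : M.carrier ≃L[ℝ] N.carrier, C < distortion S := by
  refine ⟨Complete.sig, theoryOf Complete.D0.str, isComplete_theoryOf _,
    Complete.sepCat_theoryOf _, fun C => ?_⟩
  obtain ⟨n, hn⟩ := Complete.exists_far C
  exact ⟨(Complete.Dn n).str, Complete.D0.str, Complete.isSepModel_Dn n, Complete.isSepModel_D0, hn⟩

end Pool.Agent.Lib.MP_4e4c79_lc.Old.NoUniformBoundComplete
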